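import Mathlib
namespace Pool.Agent.H.MP_d61c0a_an
open Filter Topology Complex Asymptotics Metric Finset

lemma pl {h : ℂ → ℂ} {B θ : ℝ} (hd : ∀ s, 0 ≤ s.re → DifferentiableAt ℂ h s)
    (hb : ∀ s, 0 ≤ s.re → ‖h s‖ ≤ B) (hθ : 0 ≤ θ)
    (hO : (fun x : ℝ => h x) =O[atTop] fun x => Real.exp (-(θ * x))) {s : ℂ} (hs : 0 ≤ s.re) :
    ‖h s * cexp (θ * s)‖ ≤ B := by
  refine PhragmenLindelof.right_half_plane_of_bounded_on_real (f := fun s => h s * cexp (θ * s))
    (DifferentiableOn.diffContOnCl fun s hs => ?_) ⟨1, one_lt_two, θ, .of_bound B ?_⟩ ?_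
    (fun x => by simpa [Complex.norm_exp] using hb (x * I) (by simp)) hs
  · rw [closure_setOfPred_lt_re] at hs
    exact ((hd s hs).mul (by fun_prop)).differentiableWithinAt
  · refine eventually_inf_principal.2 (.of_forall fun s hs => norm_mul_le_of_le (hb s hs.le) ?_)
    rw [Complex.norm_exp, Real.norm_of_nonneg (Real.exp_pos _).le, Real.rpow_one, re_ofReal_mul]
    gcongr
    exact re_le_norm s
  · refine (isBigO_one_iff ℝ).1 ((hO.mul (isBigO_refl (fun x : ℝ => cexp (θ * x)) _).norm_right).congr_right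
      fun x => ?_)
    rw [← ofReal_mul, norm_exp_ofReal, ← Real.exp_add]; simp

variable {l : Filter ℝ} {r : ℝ → ℝ}

lemma prod_O {ι : Type} (s : Finset ι) {a b : ι → ℝ → ℂ} (ha : ∀ i, a i =O[l] fun _ => (1 : ℝ))
    (hb : ∀ i, b i =O[l] fun _ => (1 : ℝ)) (h : ∀ i, (fun x => a i x - b i x) =O[l] r) :
    (fun x => ∏ i ∈ s, a i x - ∏ i ∈ s, b i x) =O[l] r := by
  classical
  induction s using Finset.induction_on with
  | empty => simpa using isBigO_zero _ _
  | insert i s hi ih =>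
    simp only [prod_insert hi]
    exact (((ha i).mul ih).congr_right (by simp)).add (((h i).mul (IsBigO.finsetProd (s := s)
      fun i _ => hb i)).congr_right (by simp)) |>.congr_left fun x => by ring

lemma det_O {j : ℕ} {M N : ℝ → Matrix (Fin j) (Fin j) ℂ}
    (hM : ∀ m a, (M · m a) =O[l] fun _ => (1 : ℝ)) (hN : ∀ m a, (N · m a) =O[l] fun _ => (1 : ℝ))
    (h : ∀ m a, (fun x => M x m a - N x m a) =O[l] r) :
    (fun x => (M x).det - (N x).det) =O[l] r := by
  simp only [Matrix.det_apply', ← sum_sub_distrib, ← mul_sub]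
  exact .fun_sum fun σ _ => (prod_O univ (fun i => hM _ i) (fun i => hN _ i) fun i => h _ i).const_mul_left _

lemma det0 {k : ℕ} (U : Matrix (Fin (k + 1)) (Fin k) ℂ) (G : Matrix (Fin k) (Fin (k + 1)) ℂ) :
    (U * G).det = 0 := by_contra fun h => by
  have := (Matrix.rank_mul_le_left U G).trans U.rank_le_width
  rw [Matrix.rank_of_isUnit _ ((Matrix.isUnit_iff_isUnit_det _).2 (isUnit_iff_ne_zero.2 h))] at this
  simp at this

noncomputable def τ (m : ℕ) : ℝ := 1 / (m + 1) ^ 2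
noncomputable def θ (m : ℕ) : ℝ := 2 / (m + 1)

lemma τ0 (m : ℕ) : 0 < τ m := by unfold τ; positivity

lemma om_le (m : ℕ) {s : ℂ} (hs : 0 ≤ s.re) : ‖cexp (-(τ m * s))‖ ≤ 1 := by
  rw [Complex.norm_exp, neg_re, re_ofReal_mul, Real.exp_le_one_iff, neg_nonpos]
  exact mul_nonneg (τ0 m).le hs

variable {A : Type} [NormedCommRing A] (Φ : ℂ → ℂ → A →ₙ+* ℂ)

def J (hb : ∀ s w f, ‖Φ s w f‖ ≤ ‖f‖) : Ideal A where
  carrier := {f | ∀ m, (fun x : ℝ => Φ x (cexp (-(τ m * x))) f) =O[atTop]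
    fun x => Real.exp (-(θ m * x))}
  add_mem' h1 h2 m := by simpa only [map_add] using (h1 m).add (h2 m)
  zero_mem' m := by simpa using isBigO_zero _ _
  smul_mem' c f h m := by
    simpa only [smul_eq_mul, map_mul, one_mul] using
      (IsBigO.of_bound ‖c‖ (g := fun _ => (1 : ℝ)) (.of_forall fun x => by simp [hb])).mul (h m)

noncomputable def u (m : ℕ) (f : A) (s : ℂ) : ℂ := Φ s (cexp (-(τ m * s))) f * cexp (θ m * s)

variable {Φ} (hb : ∀ s w f, ‖Φ s w f‖ ≤ ‖f‖) (hd : ∀ f (p : ℂ × ℂ), 0 ≤ p.1.re → ‖p.2‖ ≤ 1 →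
  DifferentiableAt ℂ (fun q : ℂ × ℂ => Φ q.1 q.2 f) p)

lemma mem_J {f : A} (h : ∀ m (x : ℝ), 0 ≤ x → ‖u Φ m f x‖ ≤ ‖f‖ + 1) : f ∈ J Φ hb := fun m =>
  .of_bound (‖f‖ + 1) ((eventually_ge_atTop 0).mono fun x hx => by
    have := h m x hx
    rwa [u, norm_mul, ← ofReal_mul (θ m), norm_exp_ofReal, ← le_div_iff₀ (Real.exp_pos _),
      div_eq_mul_inv, ← Real.exp_neg, ← Real.abs_exp] at this)

include hd

lemma P_d (m : ℕ) (f : A) (s : ℂ) (hs : 0 ≤ s.re) :
    DifferentiableAt ℂ (fun s => Φ s (cexp (-(τ m * s))) f) s :=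
  (hd f (s, _) hs (om_le m hs)).comp (f := fun s => (s, cexp (-(τ m * s)))) s (by fun_prop)

lemma u_le {f : A} (h : f ∈ J Φ hb) (m : ℕ) {s : ℂ} (hs : 0 ≤ s.re) : ‖u Φ m f s‖ ≤ ‖f‖ :=
  pl (P_d hd m f) (fun _ _ => hb _ _ _) (by unfold θ; positivity) (h m) hs

omit hd in
include hb in
lemma u_cont (m : ℕ) (s : ℂ) : Continuous fun f => u Φ m f s :=
  (AddMonoidHomClass.continuous_of_bound (Φ _ _) 1 (by simpa using hb _ _)).mul continuous_const

lemma J_cl : IsClosed (J Φ hb : Set A) := by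
  refine isClosed_of_closure_subset fun f hf => mem_J hb fun m x hx => le_add_of_le_of_nonneg
    (closure_minimal (fun g hg => u_le hb hd hg m (s := x) hx)
      (isClosed_le (u_cont hb m x).norm continuous_norm) hf) zero_le_one

lemma det_le {k : ℕ} {v : Fin k → A} (hv : ∀ b, v b ∈ J Φ hb) {η : Fin (k + 1) → A}
    (hη : ∀ a, η a ∈ closure (Ideal.span (Set.range v) : Set A)) :
    (fun x : ℝ => (Matrix.of fun m a : Fin (k + 1) => u Φ m (η a) x).det) =O[atTop]
      fun x => Real.exp (-(τ k * x)) := by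
  refine .of_bound ((k + 1).factorial • ‖η‖ ^ (k + 1)) ((eventually_ge_atTop 0).mono fun x hx => ?_)
  rw [Real.norm_of_nonneg (Real.exp_pos _).le, Real.exp_neg, ← div_eq_mul_inv,
    le_div_iff₀ (Real.exp_pos _), ← norm_exp_ofReal, ← norm_mul, ofReal_mul]
  have h0 : η ∈ closure (Set.univ.pi fun _ => (Ideal.span (Set.range v) : Set A)) := by
    rw [closure_pi_set]; exact fun a _ => hη a
  refine closure_minimal (t := {η : Fin (k + 1) → A | ‖(Matrix.of fun m a : Fin (k + 1) =>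
    u Φ m (η a) x).det * cexp (τ k * x)‖ ≤ (k + 1).factorial • ‖η‖ ^ (k + 1)}) (fun η h => ?_)
    (isClosed_le (Continuous.norm (.mul (.matrix_det (continuous_matrix fun m a : Fin (k + 1) =>
      (u_cont hb m x).comp (continuous_apply a))) continuous_const)) (by fun_prop)) h0
  have h1 : ∀ a, η a ∈ J Φ hb := fun a =>
    Ideal.span_le.2 (by rintro _ ⟨b, rfl⟩; exact hv b) (h a trivial)
  have h2 : ∀ m f, f ∈ J Φ hb → (fun x : ℝ => u Φ m f x) =O[atTop] fun _ => (1 : ℝ) :=
    fun m f h => .of_bound ‖f‖ ((eventually_ge_atTop 0).mono fun x hx => by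
      simpa using u_le hb hd h m (s := x) hx)
  choose c hc using fun a => (Submodule.mem_span_range_iff_exists_fun _).1 (h a trivial)
  refine pl (h := fun s => (Matrix.of fun m a : Fin (k + 1) => u Φ m (η a) s).det)
    (fun s hs => ?_) (fun s hs => ?_) (τ0 k).le ?_ (s := x) hx
  · simp only [Matrix.det_apply', Matrix.of_apply]
    exact .fun_sum fun σ _ => .const_mul (.fun_finsetProd fun a _ =>
      (P_d hd _ _ s hs).mul (by fun_prop)) _
  · exact (Matrix.det_le (abv := IsAbsoluteValue.toAbsoluteValue (norm : ℂ → ℝ))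
      fun m a : Fin (k + 1) => (u_le hb hd (h1 a) m hs).trans (norm_le_pi_norm η a)).trans_eq
      (by rw [Fintype.card_fin])
  refine (det_O (M := fun x => Matrix.of fun m a : Fin (k + 1) => u Φ m (η a) x)
    (N := fun x => (Matrix.of fun (m : Fin (k + 1)) b => u Φ m (v b) x) * Matrix.of fun b a =>
    Φ x 0 (c a b)) (fun m a => h2 m _ (h1 a)) (fun m a => ?_) fun m a => ?_).congr_left
    fun x => by rw [det0, sub_zero]
  · simpa only [Matrix.mul_apply, Matrix.of_apply, mul_one] using IsBigO.fun_sum fun b _ =>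
      (h2 m _ (hv b)).mul (.of_bound ‖c a b‖ (g := fun _ => (1 : ℝ)) (.of_forall fun x => by
        simp [hb]))
  simp only [Matrix.mul_apply, Matrix.of_apply, ← hc, u, map_sum, smul_eq_mul, map_mul, sum_mul,
    ← sum_sub_distrib]
  refine .fun_sum fun b _ => (((h2 m _ (hv b)).mul (f₂ := fun x : ℝ => Φ x (cexp (-(τ m * x))) (c a b) -
    Φ x 0 (c a b)) (.of_bound (‖c a b‖ + ‖c a b‖) ((eventually_gt_atTop 0).mono
      fun x hx => ?_))).congr_right fun _ => one_mul _).congr_left fun x => by rw [u]; ring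
  have h3 : ‖cexp (-(τ m * x))‖ = Real.exp (-(τ m * x)) := by
    rw [← ofReal_mul, ← ofReal_neg, norm_exp_ofReal]
  have := dist_le_div_mul_dist_of_mapsTo_ball (f := fun w => Φ x w (c a b)) (c := 0) (R₁ := 1)
    (fun w hw => ((hd _ (x, w) hx.le (mem_ball_zero_iff.1 hw).le).comp (f := fun w => ((x : ℂ), w)) w
      (by fun_prop)).differentiableWithinAt) (fun w _ => mem_closedBall_iff_norm.2
        (norm_sub_le_of_le (hb _ _ _) (hb _ _ _))) (z := cexp (-(τ m * x))) (by
      rw [mem_ball_zero_iff, h3, Real.exp_lt_one_iff, neg_lt_zero]; exact mul_pos (τ0 m) hx)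
  rw [dist_eq_norm, div_one, dist_zero_right, h3] at this
  rw [Real.norm_of_nonneg (Real.exp_pos _).le]
  refine this.trans ?_
  unfold τ
  gcongr
  exact_mod_cast m.is_le

noncomputable def κ (a : ℕ) (x : ℝ) : ℝ := 2 / (x + 2) * Real.exp (-(1 / (a + 1))) / (x + 2) ^ (a + 1)

omit hd in
lemma κ_le (a : ℕ) {x : ℝ} (hx : 0 ≤ x) : 0 < κ a x ∧ κ a x ≤ 1 :=
  ⟨by unfold κ; positivity, div_le_one_of_le₀ ((mul_le_one₀ (div_le_one_of_le₀ (by linarith)
    (by linarith)) (Real.exp_pos _).le (by simp; positivity)).trans (one_le_pow₀ (by linarith)))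
    (by positivity)⟩

theorem not_fg {ξ : ℕ → A} (hξ : ∀ a (x : ℝ) w, 0 ≤ x → ‖w‖ ≤ 1 → Φ x w (ξ a) =
    2 / (x + 2) * cexp (-((x + 1) / (a + 1))) * (w / (x + 2)) ^ (a + 1)) (I : Ideal A) (hI : I.FG) :
    closure (I : Set A) ≠ J Φ hb := fun h => by
  obtain ⟨k, v, rfl⟩ := Submodule.fg_iff_exists_fin_generating_family.1 hI
  have h1 : ∀ m a : ℕ, ∀ x : ℝ, 0 ≤ x → u Φ m (ξ a) x =
      (κ a x * Real.exp (-((m - a) ^ 2 / ((a + 1) * (m + 1) ^ 2) * x)) : ℝ) := fun m a x hx => by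
    rw [u, hξ a x _ hx (om_le m hx), κ, div_pow, ← Complex.exp_nat_mul]
    push_cast
    rw [div_mul_eq_mul_div (_ * _), mul_assoc _ (cexp _) (cexp _), ← Complex.exp_add, mul_div_assoc', div_mul_eq_mul_div (_ * _), mul_assoc, mul_assoc,
      ← Complex.exp_add, ← Complex.exp_add]
    congr 3
    simp only [τ, θ]; push_cast; field_simp; ring
  have h2 : ∀ m a : ℕ, ∀ x : ℝ, 0 ≤ x → ‖u Φ m (ξ a) x‖ ≤
      Real.exp (-((m - a) ^ 2 / ((a + 1) * (m + 1) ^ 2) * x)) := fun m a x hx => by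
    rw [h1 m a x hx, norm_real, Real.norm_of_nonneg (mul_pos (κ_le a hx).1 (Real.exp_pos _)).le]
    exact mul_le_of_le_one_left (Real.exp_pos _).le (κ_le a hx).2
  have h3 : ∀ m a : ℕ, ∀ x : ℝ, 0 ≤ x → ‖u Φ m (ξ a) x‖ ≤ 1 := fun m a x hx =>
    (h2 m a x hx).trans (by rw [Real.exp_le_one_iff, neg_nonpos]; positivity)
  have h4 : ∀ m a : ℕ, (fun x : ℝ => u Φ m (ξ a) x) =O[atTop] fun _ => (1 : ℝ) := fun m a =>
    .of_bound 1 ((eventually_ge_atTop 0).mono fun x hx => by simpa using h3 m a x hx)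
  have h5 := det_le hb hd (fun b => (h.subset (subset_closure (Submodule.subset_span ⟨b, rfl⟩)) :))
    (η := fun a => ξ a) fun a => h.superset (mem_J hb fun m x hx =>
      le_add_of_nonneg_of_le (norm_nonneg _) (h3 m a x hx))
  obtain ⟨ε, hε⟩ : ∃ ε : ℝ, ε = 1 / (k + 1) ^ 3 := ⟨_, rfl⟩
  have k0 : (1 : ℝ) ≤ k + 1 := by simp
  have e0 : 0 < ε := by rw [hε]; positivity
  have h6 := (h5.trans (.of_bound 1 ((eventually_ge_atTop 0).mono fun x hx => by
    simp only [Real.norm_eq_abs, Real.abs_exp, one_mul, τ, hε]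
    gcongr
    norm_num))).sub (det_O (r := fun x => Real.exp (-(ε * x)))
      (M := fun x => Matrix.of fun m a : Fin (k + 1) => u Φ m (ξ a) x)
      (N := fun x => Matrix.diagonal fun a => u Φ a (ξ a) x) (fun m a => h4 m a)
      (fun m a => by
        by_cases h : m = a
        · simpa [h] using h4 a a
        · simpa [h] using isBoundedUnder_const)
      fun m a => .of_bound 1 ((eventually_ge_atTop 0).mono fun x hx => by
        by_cases h : m = a
        · simp [h, Real.exp_nonneg]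
        rw [Matrix.diagonal_apply_ne _ h, sub_zero, one_mul, Real.norm_eq_abs, Real.abs_exp, hε, pow_succ']
        refine (h2 m a x hx).trans ?_
        gcongr
        · exact_mod_cast (one_le_sq_iff_one_le_abs _).2 (Int.one_le_abs
            (sub_ne_zero.2 (by exact_mod_cast Fin.val_ne_of_ne h : ((m : ℕ) : ℤ) ≠ (a : ℕ))))
        · exact_mod_cast a.is_le
        · exact_mod_cast m.is_le))
  simp only [sub_sub_cancel, Matrix.det_diagonal] at h6
  have h7 : ∀ a : ℕ, (fun x : ℝ => (u Φ a (ξ a) x)⁻¹) =O[atTop]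
      fun x => Real.exp (ε / 2 / (k + 1) * x) := fun a => by
    have := (((isLittleO_pow_exp_pos_mul_atTop (a + 2) (b := ε / 2 / (k + 1)) (by positivity)).comp_tendsto
      (tendsto_atTop_add_const_right _ 2 tendsto_id)).isBigO.const_mul_left
        (Real.exp (1 / (a + 1)) / 2)).trans (IsBigO.of_bound (g := fun x => Real.exp
          (ε / 2 / (k + 1) * x)) (Real.exp (ε / 2 / (k + 1) * 2)) (.of_forall fun x => by
            simp [← Real.exp_add, mul_add, add_comm]))
    refine .of_norm_left (this.congr' ((eventually_ge_atTop 0).mono fun x hx => ?_) .rfl)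
    simp only [h1 a a x hx, sub_self, Function.comp, id, norm_inv, norm_real]
    rw [Real.norm_of_nonneg (mul_pos (κ_le a hx).1 (Real.exp_pos _)).le, κ, Real.exp_neg (1 / _)]
    simp; field_simp; ring
  have h8 := (h6.mul (IsBigO.finsetProd (s := univ) fun (a : Fin (k + 1)) _ => h7 a)).trans_tendsto
    ((Real.tendsto_exp_atBot.comp (tendsto_neg_atTop_atBot.comp
      (tendsto_id.const_mul_atTop (half_pos e0)))).congr fun x => by
        simp only [Function.comp, id, prod_const, card_fin, ← Real.exp_nat_mul, ← Real.exp_add]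
        congr 1; push_cast; field_simp; ring)
  refine zero_ne_one (tendsto_nhds_unique h8 (tendsto_const_nhds.congr'
    ((eventually_ge_atTop 0).mono fun x hx => ?_)))
  simp only [← prod_mul_distrib]
  exact (prod_eq_one fun (a : Fin (k + 1)) _ => mul_inv_cancel₀ ((h1 a a x hx).trans_ne
    (ofReal_ne_zero.2 (mul_pos (κ_le a hx).1 (Real.exp_pos _)).ne'))).symm

end Pool.Agent.H.MP_d61c0a_an
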