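import Pool.Agent.H.MP_d61c0a_an.A
namespace Pool.Agent.H.MP_d61c0a_an
open Filter Topology Complex Asymptotics Metric

variable {n : ℕ} (i j : Fin n)

abbrev E (n : ℕ) := EuclideanSpace ℂ (Fin n)
abbrev CB (n : ℕ) := closedBall (0 : E n) 1

noncomputable def pt (s w : ℂ) : E n :=
  (s / (s + 2)) • EuclideanSpace.single i 1 + (w / (s + 2)) • EuclideanSpace.single j 1

lemma two_ne {s : ℂ} (hs : 0 ≤ s.re) : s + 2 ≠ 0 := fun h => by
  have := congrArg re h
  simp at this; linarith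

variable {i j}

lemma pt_mem (h : i ≠ j) {s w : ℂ} (hs : 0 ≤ s.re) (hw : ‖w‖ ≤ 1) : pt i j s w ∈ ball (0 : E n) 1 := by
  have h1 := norm_pos_iff.2 (two_ne hs)
  rw [mem_ball_zero_iff, mul_self_lt_mul_self_iff (norm_nonneg _) zero_le_one, pt,
    norm_add_sq_eq_norm_sq_add_norm_sq_of_inner_eq_zero (𝕜 := ℂ) _ _ (by
      simp [inner_smul_left, inner_smul_right, EuclideanSpace.inner_single_left, h])]
  simp only [norm_smul, PiLp.norm_single, norm_one, mul_one, norm_div, div_mul_div_comm, ← add_div]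
  rw [div_lt_one (by positivity), Complex.norm_mul_self_eq_normSq s,
    Complex.norm_mul_self_eq_normSq (s + 2)]
  simp only [normSq_apply, add_re, add_im, re_ofNat, im_ofNat]
  nlinarith [norm_nonneg w]

section
variable {X : Type} [TopologicalSpace X] {K : Set X} [CompactSpace K]

open Classical in
noncomputable def ev (A : Subalgebra ℂ C(K, ℂ)) (z : X) : A →ₙ+* ℂ where
  toFun f := if h : z ∈ K then f.1 ⟨z, h⟩ else 0
  map_mul' f g := by split_ifs <;> simp
  map_zero' := by split_ifs <;> simp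
  map_add' f g := by split_ifs <;> simp

variable {A : Subalgebra ℂ C(K, ℂ)}

omit [CompactSpace K] in
lemma ev_eq (f : A) {z : X} (h : z ∈ K) : ev A z f = f.1 ⟨z, h⟩ := dif_pos h

lemma ev_le (z : X) (f : A) : ‖ev A z f‖ ≤ ‖f‖ := by
  by_cases h : z ∈ K
  · rw [ev_eq f h]; exact f.1.norm_coe_le_norm _
  · have : ev A z f = 0 := dif_neg h
    rw [this, norm_zero]; exact norm_nonneg _

lemma gen (p : ℂ → ℂ → X) (hd : ∀ (f : A) (q : ℂ × ℂ), 0 ≤ q.1.re → ‖q.2‖ ≤ 1 →
    DifferentiableAt ℂ (fun q : ℂ × ℂ => ev A (p q.1 q.2) f) q)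
    (h1 : ∀ t : ℝ, 0 ≤ t → ∀ a, ∃ f : A, ∀ (x : ℝ) w, 0 ≤ x →
      ‖w‖ ≤ 1 → ev A (p x w) f = 2 / (x + 2) * cexp (-(t * (x + 1))) * (w / (x + 2)) ^ a) :
    ∃ J : Ideal A, IsClosed (J : Set A) ∧ (∀ I : Ideal A, I.FG → closure (I : Set A) ≠ (J : Set A)) ∧
      (∀ f ∈ J, Tendsto (fun x : ℝ => ev A (p x (cexp (-(τ 0 * x)))) f) atTop (𝓝 0)) ∧
      ∀ f : A, (∀ (x : ℝ) w, 0 ≤ x → ‖w‖ ≤ 1 →
        ev A (p x w) f = 2 / (x + 2) * cexp (-((2 : ℝ) * (x + 1))) * (w / (x + 2)) ^ 0) → f ∈ J := by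
  have hb : ∀ s w (f : A), ‖ev A (p s w) f‖ ≤ ‖f‖ := fun _ _ => ev_le _
  choose ξ h3 using fun a : ℕ => h1 (1 / (a + 1)) (by positivity) (a + 1)
  refine ⟨J _ hb, J_cl hb hd, not_fg hb hd (ξ := ξ) fun a x w hx hw => by
    rw [h3 a x w hx hw]; push_cast; congr 4; ring, fun f hf => (hf 0).trans_tendsto
      (Real.tendsto_exp_atBot.comp (tendsto_neg_atTop_atBot.comp
        (tendsto_id.const_mul_atTop (by simp [θ])))), fun f h3 => mem_J hb fun m x hx =>
          le_add_of_nonneg_of_le (norm_nonneg _) ?_⟩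
  rw [u, h3 x _ hx (om_le m hx), pow_zero, mul_one, mul_assoc, ← Complex.exp_add]
  refine (norm_mul_le_of_le (r₁ := 1) (r₂ := 1) ?_ ?_).trans_eq (mul_one _)
  · rw [norm_div, div_le_one (norm_pos_iff.2 (two_ne hx))]
    simpa using le_add_of_nonneg_left hx |>.trans (by simpa using re_le_norm (x + 2))
  · have : θ m ≤ 2 := div_le_self zero_le_two (by simp)
    rw [Complex.norm_exp, Real.exp_le_one_iff]
    simp; nlinarith
end

noncomputable def tf (i j : Fin n) (t : ℝ) (a : ℕ) (z : E n) : ℂ :=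
  (1 - z i) * cexp (-(t * ((1 + z i) / (1 - z i)))) * z j ^ a

lemma tf_d (t : ℝ) (a : ℕ) {z : E n} (h : z i ≠ 1) : DifferentiableAt ℂ (tf i j t a) z := by
  have := sub_ne_zero.2 h.symm
  unfold tf; fun_prop (disch := assumption)

lemma co_le (z : CB n) (i : Fin n) : ‖z.1 i‖ ≤ 1 :=
  (PiLp.norm_apply_le _ _).trans (mem_closedBall_zero_iff.1 z.2)

lemma tf_c {t : ℝ} (ht : 0 ≤ t) (a : ℕ) : Continuous fun z : CB n => tf i j t a z := by
  refine continuous_iff_continuousAt.2 fun z => ?_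
  by_cases h : z.1 i = 1
  · have : Tendsto (fun w : CB n => ‖1 - w.1 i‖) (𝓝 z) (𝓝 0) :=
      Continuous.tendsto' (by fun_prop) _ _ (by simp [h])
    rw [ContinuousAt, show tf i j t a z = 0 by simp [tf, h]]
    refine squeeze_zero_norm (fun w => ?_) this
    have h1 := co_le w i
    refine (norm_mul_le_of_le (norm_mul_le_of_le (r₂ := 1) le_rfl ?_) ((norm_pow _ _).trans_le
      (pow_le_one₀ (norm_nonneg _) (co_le w j)))).trans (by simp)
    rw [Complex.norm_exp, Real.exp_le_one_iff, neg_re, re_ofReal_mul, neg_nonpos, div_re,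
      ← add_div]
    refine mul_nonneg ht (div_nonneg ?_ (normSq_nonneg _))
    rw [← sq_le_one_iff₀ (norm_nonneg _), Complex.sq_norm, normSq_apply] at h1
    simp; nlinarith
  · exact (tf_d t a h).continuousAt.comp continuous_subtype_val.continuousAt

lemma tf_pt (h : i ≠ j) (t : ℝ) (a : ℕ) {s : ℂ} (hs : 0 ≤ s.re) (w : ℂ) :
    tf i j t a (pt i j s w) = 2 / (s + 2) * cexp (-(t * (s + 1))) * (w / (s + 2)) ^ a := by
  have := two_ne hs
  have h1 : 1 - s / (s + 2) = 2 / (s + 2) := by field_simp; ring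
  simp only [tf, pt, PiLp.add_apply, PiLp.smul_apply, PiLp.single_apply, h, h.symm, if_true,
    if_false, smul_eq_mul, mul_one, mul_zero, add_zero, zero_add, h1]
  congr 5; field_simp; ring

lemma pt_tend : Tendsto (fun x : ℝ => pt i j x (cexp (-(τ 0 * x)))) atTop
    (𝓝 (EuclideanSpace.single i 1)) := by
  have h2 : Tendsto (fun x : ℝ => ((x : ℂ) + 2)⁻¹) atTop (𝓝 0) := by
    simpa [Function.comp_def] using (continuous_ofReal.tendsto 0).comp (tendsto_inv_atTop_zero.comp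
      (tendsto_atTop_add_const_right _ 2 tendsto_id))
  have h3 : Tendsto (fun x : ℝ => (x : ℂ) / (x + 2)) atTop (𝓝 1) := by
    have := (h2.const_mul 2).const_sub 1
    rw [mul_zero, sub_zero] at this
    refine this.congr' ((eventually_ge_atTop (0 : ℝ)).mono fun x hx => ?_)
    have := two_ne (s := x) hx
    field_simp; ring
  have h4 : Tendsto (fun x : ℝ => cexp (-(τ 0 * x)) / (x + 2)) atTop (𝓝 0) :=
    squeeze_zero_norm' (a := fun x : ℝ => ‖((x : ℂ) + 2)⁻¹‖) ((eventually_ge_atTop (0 : ℝ)).mono fun x hx => by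
      rw [div_eq_mul_inv, norm_mul]
      exact mul_le_of_le_one_left (norm_nonneg _) (om_le 0 (s := x) hx)) (by simpa using h2.norm)
  simpa [pt] using (h3.smul_const (EuclideanSpace.single i (1 : ℂ))).add
    (h4.smul_const (EuclideanSpace.single j (1 : ℂ)))

theorem main {A : Subalgebra ℂ C(CB n, ℂ)} (h : i ≠ j) (hA : ∀ f : C(CB n, ℂ), f ∈ A ↔
    ∃ g : E n → ℂ, DifferentiableOn ℂ g (ball 0 1) ∧ ∀ x : CB n, f x = g x) :
    ∃ ζ : CB n, ‖(ζ : E n)‖ = 1 ∧ ∃ J : Ideal A, IsClosed (J : Set A) ∧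
      (∀ w : CB n, (∀ f ∈ J, (f : C(CB n, ℂ)) w = 0) ↔ w = ζ) ∧
      ∀ I : Ideal A, I.FG → closure (I : Set A) ≠ (J : Set A) := by
  have h1 : ∀ t : ℝ, 0 ≤ t → ∀ a, ∃ f : A, (∀ z, f.1 z = tf i j t a z) ∧ ∀ (x : ℝ) w, 0 ≤ x →
      ‖w‖ ≤ 1 → ev A (pt i j x w) f = 2 / (x + 2) * cexp (-(t * (x + 1))) * (w / (x + 2)) ^ a :=
    fun t ht a => ⟨⟨⟨_, tf_c ht a⟩, (hA _).2 ⟨_, fun z hz => (tf_d t a fun h => by
      have := PiLp.norm_apply_le z i
      rw [h, norm_one] at this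
      exact this.not_gt (mem_ball_zero_iff.1 hz)).differentiableWithinAt, fun _ => rfl⟩⟩,
      fun _ => rfl, fun x w hx hw => (ev_eq _ (ball_subset_closedBall (pt_mem h hx hw))).trans
        (tf_pt h t a hx w)⟩
  obtain ⟨J, j1, j2, j3, j4⟩ := gen (A := A) (pt i j) (fun f p h1 h2 => by
    obtain ⟨g, h3, h4⟩ := (hA f).1 f.2
    have h5 := isOpen_ball.mem_nhds (pt_mem h h1 h2)
    have := two_ne h1
    refine ((h3.differentiableAt h5).congr_of_eventuallyEq (f₁ := fun z => ev A z f)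
      (eventually_of_mem h5 fun z hz => (ev_eq f (ball_subset_closedBall hz)).trans (h4 _))).comp
      (f := fun q : ℂ × ℂ => pt i j q.1 q.2) p ?_
    unfold pt; fun_prop (disch := assumption)) fun t ht a => (h1 t ht a).imp fun _ h => h.2
  refine ⟨⟨EuclideanSpace.single i 1, by simp⟩, by simp, J, j1, fun w => ⟨fun H => ?_, ?_⟩, j2⟩
  · obtain ⟨f, h2, h3⟩ := h1 2 zero_le_two 0
    have := H f (j4 f h3)
    rw [h2] at this
    simp only [tf, pow_zero, mul_one, mul_eq_zero, Complex.exp_ne_zero, or_false, sub_eq_zero] at this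
    have h4 := PiLp.norm_apply_le w.1 i
    rw [← this, norm_one] at h4
    exact Subtype.ext ((inner_eq_one_iff_of_norm_eq_one (𝕜 := ℂ) (by simp)
      ((mem_closedBall_zero_iff.1 w.2).antisymm h4)).1 (by
        simp [EuclideanSpace.inner_single_left, ← this])).symm
  · rintro rfl f hf
    have h4 := (eventually_ge_atTop (0 : ℝ)).mono fun x hx =>
      ball_subset_closedBall (pt_mem h (s := x) hx (om_le 0 (s := x) hx))
    have h5 : ContinuousOn (fun z => ev A z f) (CB n) := continuousOn_iff_continuous_domRestrict.2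
      (f.1.continuous.congr fun z => (ev_eq f z.2).symm)
    exact (ev_eq f _).symm.trans (tendsto_nhds_unique ((h5 _ (by simp)).tendsto.comp
      (tendsto_nhdsWithin_iff.2 ⟨pt_tend, h4⟩)) (j3 f hf))

end Pool.Agent.H.MP_d61c0a_an
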